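import Pool.Agent.Q120.FA.Fin7
import Pool.Agent.Q210.FA.W0
import Pool.Agent.Q210.FA.W1
import Pool.Agent.Q124.FA.W2
import Pool.Agent.Q124.FA.W8
import Pool.Agent.Q299.FA.W3
import Pool.Agent.Q299.FA.W6
import Pool.Agent.Q176.FA.W4
import Pool.Agent.Q176.FA.W5
import Pool.Agent.Q176.FA.W9
import Pool.Agent.Q285.FA.W
import Pool.Agent.Q285.FX.X1b
import Pool.Agent.Q149.FX.X2
import Pool.Agent.Q79.FX.X3
import Pool.Agent.Q149.FX.X4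
import Pool.Agent.Q150.FX.X5

set_option autoImplicit false

/-!
# Franel's integral and Franel's sum: exact asymptotics, the weak Mertens hypothesis and the multiplicities of the zeros

`Q(N) = ∫_0^1 E_N²`, `E_N` the discrepancy of the Farey fractions of order `N`, and Franel's sum `D(N) = ∑_ν (r_ν - ν/Φ(N))²`
(Franel 1924: RH iff `D(N) ≪ N^(-1+ε)`). No hypothesis is assumed.
-/

namespace Pool.Agent.Results.MP_6bc78b_nt.FranelIntegral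

open MeasureTheory Filter Topology Set

open Classical in
/-- the Farey fractions `a/n`, `1 ≤ a ≤ n ≤ N`, `(a,n) = 1`, of order `N`, as pairs `(a,n)` -/
noncomputable def Farey (N : ℕ) : Finset (ℕ × ℕ) :=
  (Finset.Icc 1 N ×ˢ Finset.Icc 1 N).filter fun q : ℕ × ℕ => q.1 ≤ q.2 ∧ q.1.Coprime q.2

/-- the number `a/n` -/
noncomputable def val (q : ℕ × ℕ) : ℝ := (q.1 : ℝ) / (q.2 : ℝ)

open Classical in
/-- the number of Farey fractions of order `N` that are at most `t` (for a Farey fraction `t` its index) -/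
noncomputable def cnt (N : ℕ) (t : ℝ) : ℕ :=
  ((Finset.Icc 1 N ×ˢ Finset.Icc 1 N).filter fun q : ℕ × ℕ =>
    q.1 ≤ q.2 ∧ q.1.Coprime q.2 ∧ (q.1 : ℝ) / (q.2 : ℝ) ≤ t).card

/-- the discrepancy `E_N(t) = #{r ∈ F_N : r ≤ t} - Φ(N) t`, `Φ(N) = ∑_{n ≤ N} φ(n)` -/
noncomputable def E (N : ℕ) (t : ℝ) : ℝ := (cnt N t : ℝ) - (∑ n ∈ Finset.Icc 1 N, (n.totient : ℝ)) * t

/-- Franel's integral -/
noncomputable def Q (N : ℕ) : ℝ := ∫ t in (0 : ℝ)..1, E N t ^ 2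

/-- Franel's sum `∑_ν (r_ν - ν/Φ(N))²` -/
noncomputable def D (N : ℕ) : ℝ := ∑ q ∈ Farey N, (val q - (cnt N (val q) : ℝ) / ((Farey N).card : ℝ)) ^ 2

/-- the nontrivial zeros of zeta -/
def Zeros : Set ℂ := {s | riemannZeta s = 0 ∧ 0 < s.re ∧ s.re < 1}

/-- all nontrivial zeros are on the line and simple, and `∑ 1/|ρ ζ'(ρ)|²` converges -/
def ZerosCondition : Prop := (∀ ρ ∈ Zeros, ρ.re = 1 / 2 ∧ deriv riemannZeta ρ ≠ 0) ∧
  Summable (fun ρ : Zeros => 1 / ‖(ρ : ℂ) * deriv riemannZeta ρ‖ ^ 2)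

/-- the constant `S = (12 ζ(3))^(-1) ∑_ρ |ζ(1+ρ)|²/|ρ ζ'(ρ)|²` -/
noncomputable def S : ℝ := (∑' ρ : Zeros, ‖riemannZeta (1 + (ρ : ℂ))‖ ^ 2 / ‖(ρ : ℂ) * deriv riemannZeta ρ‖ ^ 2) /
  (12 * ∑' n : ℕ, 1 / (n : ℝ) ^ 3)

/-- the Mertens function -/
noncomputable def M (x : ℝ) : ℝ := ∑ n ∈ Finset.Icc 1 ⌊x⌋₊, ((ArithmeticFunction.moebius n : ℤ) : ℝ)

/-- the weak Mertens hypothesis -/
def WeakMertens : Prop := ∃ C : ℝ, ∀ x : ℝ, 2 ≤ x → ∫ u in (1 : ℝ)..x, (M u / u) ^ 2 ≤ C * Real.log x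

/-- `f` tends to `c` if the condition on the zeros holds, and to `∞` otherwise -/
def Lim (f : ℕ → ℝ) (c : ℝ) : Prop := (ZerosCondition → Tendsto f atTop (𝓝 c)) ∧ (¬ ZerosCondition → Tendsto f atTop atTop)

open Classical in
/-- the set of the `N` with `P N` has logarithmic density zero -/
def Null (P : ℕ → Prop) : Prop :=
  Tendsto (fun X : ℕ => (∑ N ∈ (Finset.Icc 1 X).filter P, 1 / (N : ℝ)) / Real.log X) atTop (𝓝 0)

/-- `Q(N)/(N log N)` -/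
noncomputable def a (N : ℕ) : ℝ := Q N / (N * Real.log N)

/-- `N D(N)/log N` -/
noncomputable def b (N : ℕ) : ℝ := N * D N / Real.log N

open Pool.Agent.Q120.FA in
private lemma D_eq2 : D = Pool.Agent.Q120.FA.D 2 := by
  funext N
  unfold D Pool.Agent.Q120.FA.D
  refine Finset.sum_congr rfl fun q _ => ?_
  rw [Real.rpow_two, sq_abs]
  rfl

/-- **Theorem.** -/
theorem result :
    -- the lower limits
    ((ZerosCondition → (∀ c : ℝ, c < S → ∀ᶠ N : ℕ in atTop, c ≤ a N) ∧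
        (∀ c : ℝ, c < Real.pi ^ 2 / 3 * S → ∀ᶠ N : ℕ in atTop, c ≤ b N)) ∧
      (¬ ZerosCondition → Tendsto a atTop atTop ∧ Tendsto b atTop atTop)) ∧
    -- the logarithmic means
    (Lim (fun X : ℕ => 2 / Real.log X ^ 2 * ∑ N ∈ Finset.Icc 1 X, Q N / (N : ℝ) ^ 2) S ∧
      Lim (fun X : ℕ => 2 / Real.log X ^ 2 * ∑ N ∈ Finset.Icc 1 X, D N) (Real.pi ^ 2 / 3 * S)) ∧
    -- convergence outside sets of logarithmic density zero
    (ZerosCondition → ∀ ε : ℝ, 0 < ε → Null (fun N => ε < |a N - S|) ∧ Null (fun N => ε < |b N - Real.pi ^ 2 / 3 * S|)) ∧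
    -- the weak Mertens hypothesis
    List.TFAE [WeakMertens, ZerosCondition,
      ∃ C : ℝ, ∃ᶠ N : ℕ in atTop, Q N ≤ C * (N * Real.log N),
      ∃ C : ℝ, ∃ᶠ N : ℕ in atTop, D N ≤ C * (Real.log N / N)] ∧
    -- zeros of order at least `m`
    (∀ ρ ∈ Zeros, 1 / 2 ≤ ρ.re → ∀ m : ℕ, 1 ≤ m → (m : ℕ∞) ≤ analyticOrderAt riemannZeta ρ →
      ∃ c : ℝ, 0 < c ∧ ∀ᶠ N : ℕ in atTop,
        c * (N * Real.log N ^ (2 * m - 1)) ≤ Q N ∧ c * ((N : ℝ) ^ (ρ.re + 1 / 2) * Real.log N ^ (2 * m - 2)) ≤ Q N ∧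
        c * (Real.log N ^ (2 * m - 1) / N) ≤ D N ∧ c * ((N : ℝ) ^ (ρ.re - 3 / 2) * Real.log N ^ (2 * m - 2)) ≤ D N) ∧
    -- bounds for the multiplicities
    (∀ m : ℕ, ((∀ ε : ℝ, 0 < ε → ∃ᶠ N : ℕ in atTop, Q N ≤ ε * (N * Real.log N ^ (2 * m + 1))) ∨
        (∀ ε : ℝ, 0 < ε → ∃ᶠ N : ℕ in atTop, D N ≤ ε * (Real.log N ^ (2 * m + 1) / N))) →
      RiemannHypothesis ∧ ∀ ρ ∈ Zeros, ρ.re = 1 / 2 ∧ analyticOrderAt riemannZeta ρ ≤ m) := by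
  have w0 := Pool.Agent.Q210.FA.t_W0
  have w1 := Pool.Agent.Q210.FA.t_W1
  have w2 := Pool.Agent.Q124.FA.t_W2
  have w3 := Pool.Agent.Q299.FA.t_W3
  have w4 := Pool.Agent.Q176.FA.W4.t_W4 w1 w2 w3
  have w5 := Pool.Agent.Q176.FA.W5.t_W5 w1 w2
  have w6 := Pool.Agent.Q299.FA.t_W6 w1 w2
  have w8 := Pool.Agent.Q124.FA.t_W8
  have w9 := Pool.Agent.Q176.FA.W9.t_W9 w1
  have w10 := Pool.Agent.Q285.FA.t_W10
  have w11 := Pool.Agent.Q285.FA.t_W11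
  have x5 := Pool.Agent.Q150.FX.t_X5 (Pool.Agent.Q149.FX.X2.t_X2 Pool.Agent.Q285.FX.t_X1) Pool.Agent.Q79.FX.t_X3
    Pool.Agent.Q149.FX.X4.t_X4
  have hb : b = Pool.Agent.Q120.FA.bD := by
    funext N
    unfold b Pool.Agent.Q120.FA.bD
    rw [D_eq2]
  rw [hb, D_eq2]
  refine ⟨⟨fun hZ => Pool.Agent.Q120.FA.lower_fin w0 w4 hZ, fun hZ => ⟨w5 hZ, Pool.Agent.Q120.FA.top_D w0 (w5 hZ)⟩⟩,
    Pool.Agent.Q120.FA.means w0 w5 w6 w11, fun hZ ε hε => Pool.Agent.Q120.FA.nulls w0 w4 w6 w10 w11 hZ hε,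
    Pool.Agent.Q120.FA.tfae w0 w5 w6 w11, ?_, ?_⟩
  · intro ρ hρ h12 m hm hord
    obtain ⟨r, rfl⟩ : ∃ r, m = r + 1 := ⟨m - 1, by omega⟩
    obtain ⟨c, hc, h1⟩ := Pool.Agent.Q120.FA.mult_low x5 w8 w9 h12 hρ.2.2 hord
    obtain ⟨c', hc', h2⟩ := Pool.Agent.Q120.FA.mult_lowD w0 x5 w8 w9 h12 hρ.2.2 hord
    have e1 : 2 * (r + 1) - 1 = 2 * r + 1 := by omega
    have e2 : 2 * (r + 1) - 2 = 2 * r := by omega
    rw [e1, e2]
    refine ⟨min c c', lt_min hc hc', ?_⟩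
    filter_upwards [h1, h2, Pool.Agent.Q120.FA.evlog] with N g1 g2 g3
    have p1 : 0 ≤ (N : ℝ) * Real.log N ^ (2 * r + 1) := mul_nonneg g3.1.le (pow_nonneg g3.2.le _)
    have p2 : 0 ≤ (N : ℝ) ^ (ρ.re + 1 / 2) * Real.log N ^ (2 * r) :=
      mul_nonneg (Real.rpow_nonneg g3.1.le _) (pow_nonneg g3.2.le _)
    have p3 : 0 ≤ Real.log N ^ (2 * r + 1) / N := div_nonneg (pow_nonneg g3.2.le _) g3.1.le
    have p4 : 0 ≤ (N : ℝ) ^ (ρ.re - 3 / 2) * Real.log N ^ (2 * r) :=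
      mul_nonneg (Real.rpow_nonneg g3.1.le _) (pow_nonneg g3.2.le _)
    exact ⟨(mul_le_mul_of_nonneg_right (min_le_left _ _) p1).trans g1.1,
      (mul_le_mul_of_nonneg_right (min_le_left _ _) p2).trans g1.2,
      (mul_le_mul_of_nonneg_right (min_le_right _ _) p3).trans g2.1,
      (mul_le_mul_of_nonneg_right (min_le_right _ _) p4).trans g2.2⟩
  · rintro m (h | h)
    · exact Pool.Agent.Q120.FA.crit x5 w8 w9 h
    · exact Pool.Agent.Q120.FA.critD w0 x5 w8 w9 h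

end Pool.Agent.Results.MP_6bc78b_nt.FranelIntegral
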